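import Pool.Agent.H49W.Win
import Pool.Agent.Subspace.AvFinal

set_option autoImplicit false

/-!
# Digits in windows of consecutive powers, explicit windows for `q = 2` and for `2 ^ n` in base `3`
(MP_b08cb4_nt)
-/

namespace Pool.Agent.H49W

open Pool.Agent.DigitPowers

/-- Base `2`: single powers. -/
theorem sum_two {p b : ℕ} (hp : 2 ≤ p) (hpq : Nat.Coprime p 2) (hb : b < 2) {ε : ℝ}
    (hε : 0 < ε) :
    ∃ C : ℝ, 0 < C ∧ ∀ A : ℕ, 1 ≤ A → ∀ N : ℕ,
      ∑ n ∈ Finset.range N, 1 / (1 + ∑ i ∈ Finset.range (0 + 1),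
        ((blockPos 2 1 b (A * p ^ (n + i))).card : ℝ)) ≤ C * (N : ℝ) ^ ε := by
  obtain ⟨C, hC, h⟩ := SST.changes_eps (p := p) (q := 2) hp le_rfl hpq hε
  refine ⟨2 * C, by positivity, ?_⟩
  intro A hA N
  calc ∑ n ∈ Finset.range N, 1 / (1 + ∑ i ∈ Finset.range (0 + 1),
        ((blockPos 2 1 b (A * p ^ (n + i))).card : ℝ))
      ≤ ∑ n ∈ Finset.range N, 2 * (1 / (1 + ((changePos 2 (A * p ^ n)).card : ℝ))) := by
        apply Finset.sum_le_sum
        intro n _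
        rw [Finset.sum_range_one, add_zero]
        have h2 : ((changePos 2 (A * p ^ n)).card : ℝ) ≤
            2 * ((blockPos 2 1 b (A * p ^ n)).card : ℝ) + 1 := by
          exact_mod_cast chg_two b hb (A * p ^ n)
        have h3 : (0 : ℝ) ≤ ((changePos 2 (A * p ^ n)).card : ℝ) := Nat.cast_nonneg _
        have h4 : (0 : ℝ) ≤ ((blockPos 2 1 b (A * p ^ n)).card : ℝ) := Nat.cast_nonneg _
        rw [mul_one_div, div_le_div_iff₀ (by linarith) (by linarith)]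
        linarith
    _ = 2 * ∑ n ∈ Finset.range N, 1 / (1 + ((changePos 2 (A * p ^ n)).card : ℝ)) := by
        rw [Finset.mul_sum]
    _ ≤ 2 * (C * (N : ℝ) ^ ε) := by
        have := h A hA N
        linarith
    _ = _ := by ring

/-- Powers of `2` in base `3`: two consecutive powers. -/
theorem sum_two_three {b : ℕ} (hb : b < 3) {ε : ℝ} (hε : 0 < ε) :
    ∃ C : ℝ, 0 < C ∧ ∀ A : ℕ, 1 ≤ A → ∀ N : ℕ,
      ∑ n ∈ Finset.range N, 1 / (1 + ∑ i ∈ Finset.range (1 + 1),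
        ((blockPos 3 1 b (A * 2 ^ (n + i))).card : ℝ)) ≤ C * (N : ℝ) ^ ε := by
  obtain ⟨C, hC, h⟩ := SST.changes_eps (p := 2) (q := 3) le_rfl (by norm_num) (by decide) hε
  refine ⟨3 * C, by positivity, ?_⟩
  intro A hA N
  calc ∑ n ∈ Finset.range N, 1 / (1 + ∑ i ∈ Finset.range (1 + 1),
        ((blockPos 3 1 b (A * 2 ^ (n + i))).card : ℝ))
      ≤ ∑ n ∈ Finset.range N, 3 * (1 / (1 + ((changePos 3 (A * 2 ^ n)).card : ℝ))) := by
        apply Finset.sum_le_sum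
        intro n _
        rw [Finset.sum_range_succ, Finset.sum_range_one, add_zero]
        have h1 := chg_le b hb (A * 2 ^ n)
        have e : 2 * (A * 2 ^ n) = A * 2 ^ (n + 1) := by rw [pow_succ]; ring
        rw [e] at h1
        have h2 : ((changePos 3 (A * 2 ^ n)).card : ℝ) ≤
            3 * (((blockPos 3 1 b (A * 2 ^ n)).card : ℝ) +
              ((blockPos 3 1 b (A * 2 ^ (n + 1))).card : ℝ)) + 2 := by
          exact_mod_cast h1
        have h3 : (0 : ℝ) ≤ ((changePos 3 (A * 2 ^ n)).card : ℝ) := Nat.cast_nonneg _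
        have h4 : (0 : ℝ) ≤ ((blockPos 3 1 b (A * 2 ^ n)).card : ℝ) := Nat.cast_nonneg _
        have h5 : (0 : ℝ) ≤ ((blockPos 3 1 b (A * 2 ^ (n + 1))).card : ℝ) := Nat.cast_nonneg _
        rw [mul_one_div, div_le_div_iff₀ (by linarith) (by linarith)]
        linarith
    _ = 3 * ∑ n ∈ Finset.range N, 1 / (1 + ((changePos 3 (A * 2 ^ n)).card : ℝ)) := by
        rw [Finset.mul_sum]
    _ ≤ 3 * (C * (N : ℝ) ^ ε) := by
        have := h A hA N
        linarith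
    _ = _ := by ring

/-- All coprime `p`, `q` and all blocks, with explicit windows in two cases. -/
theorem windows {p q : ℕ} (hp : 2 ≤ p) (hq : 2 ≤ q) (hpq : Nat.Coprime p q)
    {k w : ℕ} (hk : 1 ≤ k) (hw : w < q ^ k) :
    ∃ K : ℕ, (q = 2 → k = 1 → K = 0) ∧ (p = 2 → q = 3 → k = 1 → K = 1) ∧
      ∀ ε : ℝ, 0 < ε → ∃ C : ℝ, 0 < C ∧ ∀ A : ℕ, 1 ≤ A → ∀ N : ℕ,
        ∑ n ∈ Finset.range N,
          1 / (1 + ∑ i ∈ Finset.range (K + 1), ((blockPos q k w (A * p ^ (n + i))).card : ℝ))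
          ≤ C * (N : ℝ) ^ ε := by
  by_cases h1 : q = 2 ∧ k = 1
  · obtain ⟨rfl, rfl⟩ := h1
    rw [pow_one] at hw
    exact ⟨0, fun _ _ => rfl, fun _ h => absurd h (by norm_num),
      fun ε hε => sum_two hp hpq hw hε⟩
  · by_cases h2 : p = 2 ∧ q = 3 ∧ k = 1
    · obtain ⟨rfl, rfl, rfl⟩ := h2
      rw [pow_one] at hw
      exact ⟨1, fun h => absurd h (by norm_num), fun _ _ _ => rfl,
        fun ε hε => sum_two_three hw hε⟩
    · obtain ⟨K, hK⟩ := SST.blocks_eps hp hq hpq hk hw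
      exact ⟨K, fun h h' => absurd ⟨h, h'⟩ h1, fun h h' h'' => absurd ⟨h, h', h''⟩ h2, hK⟩

end Pool.Agent.H49W
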