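import Mathlib

set_option autoImplicit false

/-!
# Digits and digit changes (MP_b08cb4_nt)

Base `2`: the number of digit changes of `m` is at most `2 d_m(b) + 1`.
Base `3`: if neither `m` nor `2 m` has the digit `b` in a stretch of positions, then `m` has at most
one digit change there; the number of digit changes of `m` is at most
`3 (d_m(b) + d_{2 m}(b)) + 2`.
-/

namespace Pool.Agent.H49W

/-- the positions `i` with `i + 1` also a position and the digits there different -/
def chg (q m : ℕ) : Finset ℕ :=
  (Finset.range (Nat.digits q m).length).filter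
    (fun i => i + 1 < (Nat.digits q m).length ∧ m / q ^ i % q ≠ m / q ^ (i + 1) % q)

/-- the positions of the digit `b` -/
def dig (q b m : ℕ) : Finset ℕ :=
  (Finset.range ((Nat.digits q m).length + 1)).filter
    (fun i => i + 1 ≤ (Nat.digits q m).length ∧ m / q ^ i % q ^ 1 = b)

theorem len_succ {q m : ℕ} (hq : 2 ≤ q) (hm : 0 < m) :
    (Nat.digits q m).length = (Nat.digits q (m / q)).length + 1 := by
  rw [Nat.digits_def' (by omega) hm, List.length_cons]

theorem dig_succ {q : ℕ} (hq : 2 ≤ q) (b : ℕ) {m : ℕ} (hm : 0 < m) :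
    (dig q b m).card = (dig q b (m / q)).card + if m % q = b then 1 else 0 := by
  unfold dig
  rw [Finset.card_filter, Finset.card_filter, len_succ hq hm, Finset.sum_range_succ']
  congr 1
  · refine Finset.sum_congr rfl fun i _ => ?_
    have e : m / q ^ (i + 1) = m / q / q ^ i := by
      rw [Nat.div_div_eq_div_mul, pow_succ, mul_comm]
    rw [e]
    simp only [add_le_add_iff_right]
  · simp

theorem chg_succ {q : ℕ} (hq : 2 ≤ q) {m : ℕ} (hm : 0 < m) :
    (chg q m).card ≤ (chg q (m / q)).card + if m % q ≠ m / q % q then 1 else 0 := by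
  unfold chg
  rw [Finset.card_filter, Finset.card_filter, len_succ hq hm, Finset.sum_range_succ']
  apply add_le_add
  · refine Finset.sum_le_sum fun i _ => ?_
    have e : ∀ j : ℕ, m / q ^ (j + 1) = m / q / q ^ j := by
      intro j
      rw [Nat.div_div_eq_div_mul, pow_succ, mul_comm]
    rw [e, e]
    simp only [add_lt_add_iff_right, le_refl]
  · simp only [pow_zero, Nat.div_one, zero_add, pow_one]
    split_ifs with h1 h2
    · exact le_rfl
    · exact absurd h1.2 h2
    · exact Nat.zero_le _
    · exact le_rfl

theorem chg_zero (q : ℕ) : (chg q 0).card = 0 := by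
  simp [chg]

/-! ### Base three, multiplication by two -/

/-- the potential: `b` is the digit, `d` the lowest digit of `m`, `c` the carry -/
def phi (b d c : ℕ) : ℕ :=
  if b = 2 then (if d = 1 ∧ c = 1 then 2 else if d = 0 then 1 else 0)
  else if b = 0 then (if d = 1 ∧ c = 0 then 2 else if d = 2 then 1 else 0)
  else (if (d = 0 ∧ c = 0) ∨ (d = 2 ∧ c = 1) then 1 else 0)

theorem phi_step : ∀ b < 3, ∀ d < 3, ∀ d' < 3, ∀ c < 2,
    phi b d' ((2 * d + c) / 3) + (if d ≠ d' then 1 else 0) ≤
      3 * (if d = b then 1 else 0) + 3 * (if (2 * d + c) % 3 = b then 1 else 0) + phi b d c := by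
  decide

theorem phi_le : ∀ b < 3, ∀ d < 3, ∀ c < 2, phi b d c ≤ 2 := by
  decide

theorem chg_le_aux (b : ℕ) (hb : b < 3) : ∀ m c : ℕ, c < 2 →
    (chg 3 m).card ≤
      3 * ((dig 3 b m).card + (dig 3 b (2 * m + c)).card) + phi b (m % 3) c := by
  intro m
  induction m using Nat.strong_induction_on with
  | _ m ih =>
    intro c hc
    rcases Nat.eq_zero_or_pos m with rfl | hm
    · rw [chg_zero]; exact Nat.zero_le _
    · have h1 := ih (m / 3) (Nat.div_lt_self hm (by norm_num)) ((2 * (m % 3) + c) / 3) (by omega)
      have h2 := phi_step b hb (m % 3) (Nat.mod_lt _ (by norm_num)) (m / 3 % 3)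
        (Nat.mod_lt _ (by norm_num)) c hc
      have h3 := chg_succ (q := 3) (by norm_num) hm
      have h4 := dig_succ (q := 3) (by norm_num) b hm
      have h5 := dig_succ (q := 3) (by norm_num) b (show 0 < 2 * m + c by omega)
      have e1 : (2 * m + c) / 3 = 2 * (m / 3) + (2 * (m % 3) + c) / 3 := by omega
      have e2 : (2 * m + c) % 3 = (2 * (m % 3) + c) % 3 := by omega
      rw [e1, e2] at h5
      rw [h4, h5]
      omega

/-- The number of digit changes of `m` in base `3` is bounded by the number of digits `b` of `m` and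
of `2 m`. -/
theorem chg_le (b : ℕ) (hb : b < 3) (m : ℕ) :
    (chg 3 m).card ≤ 3 * ((dig 3 b m).card + (dig 3 b (2 * m)).card) + 2 := by
  have h1 := chg_le_aux b hb m 0 (by norm_num)
  have h2 := phi_le b hb (m % 3) (Nat.mod_lt _ (by norm_num)) 0 (by norm_num)
  rw [add_zero] at h1
  omega

/-! ### Base two -/

theorem chg_two_aux (b : ℕ) (hb : b < 2) : ∀ m : ℕ,
    (chg 2 m).card ≤ 2 * (dig 2 b m).card + if m % 2 = b then 0 else 1 := by
  intro m
  induction m using Nat.strong_induction_on with
  | _ m ih =>
    rcases Nat.eq_zero_or_pos m with rfl | hm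
    · rw [chg_zero]; exact Nat.zero_le _
    · have h1 := ih (m / 2) (Nat.div_lt_self hm (by norm_num))
      have h3 := chg_succ (q := 2) le_rfl hm
      have h4 := dig_succ (q := 2) le_rfl b hm
      rw [h4]
      split_ifs at * <;> omega

/-- The number of digit changes of `m` in base `2` is bounded by the number of digits `b`. -/
theorem chg_two (b : ℕ) (hb : b < 2) (m : ℕ) :
    (chg 2 m).card ≤ 2 * (dig 2 b m).card + 1 := by
  have h1 := chg_two_aux b hb m
  split_ifs at h1 <;> omega

end Pool.Agent.H49W
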